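import Pool.Agent.Q292.Broadcast.Core2

set_option autoImplicit false

/-!
# MP_2a7bed_co: boundary versus hearing independent broadcast numbers

`i_bn(G) ≤ i_h(G)` for every finite simple graph `G`, connected or not.
-/

namespace Pool.Agent.Results.MP_2a7bed_co.BoundaryAtMostHearing

open SimpleGraph Finset Pool.Agent.Q292.Broadcast

variable {V : Type*} [Fintype V] {G : SimpleGraph V}

/-- From a maximal hearing independent broadcast to a maximal bn-independent one. -/
lemma exists_bn_le {f : V → ℕ} (hf : IsMaxHear G f) : ∃ g, IsMaxBn G g ∧ cost g ≤ cost f := by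
  apply exists_maxBn_of_fun f hf.dom
  intro v hv
  rcases hf.partner v hv with h | ⟨u, hu1, hu2, hn, -⟩
  · exact Or.inl h
  · right
    obtain ⟨z, hz1, hz2⟩ := near_split hn
    exact ⟨u, hu1, hu2, z, hz1, near_mono (near_symm hz2) hu2⟩

/-- Maximal hearing independent broadcasts exist. -/
lemma exists_maxHear (G : SimpleGraph V) : ∃ f, IsMaxHear G f := by
  classical
  let P : ℕ → Prop := fun n => ∃ f, IsBroadcast G f ∧ HearIndep G f ∧ cost f = n
  have hb : ∀ f, IsBroadcast G f → cost f ≤ ∑ v, (ecc G v + 1) := by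
    intro f hf
    apply Finset.sum_le_sum
    intro v _
    by_cases h : ∃ u, G.Adj v u
    · have := (hf v).2 h
      omega
    · push Not at h
      have := (hf v).1 h
      omega
  have hex : ∃ n, P n := by
    refine ⟨_, fun v => if ∀ u, ¬ G.Adj v u then 1 else 0, ?_, ?_, rfl⟩
    · intro v
      refine ⟨fun h => by simp [h], fun ⟨u, hu⟩ => ?_⟩
      have : ¬ ∀ u, ¬ G.Adj v u := fun h => h u hu
      simp [this]
    · intro u v _ huv
      have hv : ∀ u, ¬ G.Adj v u := by
        by_contra h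
        have h1 := huv.1
        simp only [h, if_false] at h1
        exact absurd h1 (lt_irrefl 0)
      exact (eq_of_isolated hv huv.2.1.symm).symm
  obtain ⟨n, hn⟩ := hex
  obtain ⟨f, hf1, hf2, hf3⟩ := Nat.findGreatest_spec (P := P)
    (n := ∑ v, (ecc G v + 1)) (m := n)
    (by obtain ⟨f, h1, _, h3⟩ := hn; rw [← h3]; exact hb f h1) hn
  refine ⟨f, hf1, hf2, fun g hg1 hg2 hle => ?_⟩
  by_contra hne
  have hlt : cost f < cost g := by
    apply Finset.sum_lt_sum (fun v _ => hle v)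
    obtain ⟨v, hv⟩ := Function.ne_iff.1 hne
    exact ⟨v, Finset.mem_univ v, lt_of_le_of_ne (hle v) (Ne.symm hv)⟩
  have := Nat.le_findGreatest (P := P) (hb g hg1) ⟨g, hg1, hg2, rfl⟩
  omega

/-- **Theorem.** For every finite simple graph `G`, the minimum costs `i_bn(G)` and `i_h(G)` are
attained and `i_bn(G) ≤ i_h(G)`. -/
theorem result (V : Type) [Fintype V] (G : SimpleGraph V) :
    IsLeast {c | ∃ f, IsMaxBn G f ∧ cost f = c} (ibn G) ∧
      IsLeast {c | ∃ f, IsMaxHear G f ∧ cost f = c} (ih G) ∧ ibn G ≤ ih G := by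
  have hne : {c | ∃ f, IsMaxHear G f ∧ cost f = c}.Nonempty := by
    obtain ⟨f, hf⟩ := exists_maxHear G
    exact ⟨_, f, hf, rfl⟩
  have hh : ih G ∈ {c | ∃ f, IsMaxHear G f ∧ cost f = c} := Nat.sInf_mem hne
  obtain ⟨f, hf, hfc⟩ := hh
  obtain ⟨g, hg, hgc⟩ := exists_bn_le hf
  refine ⟨⟨Nat.sInf_mem ⟨_, g, hg, rfl⟩, fun c hc => Nat.sInf_le hc⟩,
    ⟨⟨f, hf, hfc⟩, fun c hc => Nat.sInf_le hc⟩, ?_⟩
  calc ibn G ≤ cost g := Nat.sInf_le ⟨g, hg, rfl⟩
    _ ≤ cost f := hgc
    _ = ih G := hfc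

end Pool.Agent.Results.MP_2a7bed_co.BoundaryAtMostHearing
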